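import Pool.Agent.Helper70.KN.Goals4

/-!
# PROJECT KN (MP_20ee5e_ag), packet SG: integral of a supergradient selection on an interval
-/

set_option autoImplicit false

open MeasureTheory Set

namespace Pool.Agent.Helper22.KN.SG

open Pool.Agent.Helper70.KN

theorem anti (φ b : ℝ → ℝ) (S : ℝ)
    (h : ∀ s ∈ Icc 0 S, ∀ s' ∈ Icc 0 S, φ s' ≤ φ s + b s * (s' - s)) :
    AntitoneOn b (Icc 0 S) := by
  intro s hs s' hs' hss
  rcases hss.lt_or_eq with hlt | heq
  · have h1 := h s hs s' hs'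
    have h2 := h s' hs' s hs
    have h3 : 0 ≤ (b s - b s') * (s' - s) := by nlinarith
    have h4 : 0 ≤ b s - b s' := nonneg_of_mul_nonneg_left h3 (sub_pos.2 hlt)
    linarith
  · rw [heq]

theorem bound (φ b : ℝ → ℝ) (S : ℝ) (hS : 0 < S)
    (h : ∀ s ∈ Icc 0 S, ∀ s' ∈ Icc 0 S, φ s' ≤ φ s + b s * (s' - s)) (m : ℕ) (hm : 0 < m) :
    ∫ s in (0 : ℝ)..S, b s ≤ φ S - φ 0 + (b 0 - b S) * S / m := by
  have hm0 : (0 : ℝ) < m := by exact_mod_cast hm
  set c : ℝ := S / m with hc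
  have hc0 : 0 < c := div_pos hS hm0
  have hcm : c * m = S := by rw [hc]; field_simp
  have hmem : ∀ x : ℝ, 0 ≤ x → x ≤ m → c * x ∈ Icc 0 S := by
    intro x hx0 hxm
    refine ⟨mul_nonneg hc0.le hx0, ?_⟩
    rw [← hcm]
    exact mul_le_mul_of_nonneg_left hxm hc0.le
  have hanti : AntitoneOn (fun x => b (c * x)) (Icc (0 : ℝ) (0 + (m : ℝ))) := by
    intro x hx y hy hxy
    rw [zero_add] at hx hy
    exact anti φ b S h (hmem x hx.1 hx.2) (hmem y hy.1 hy.2)
      (mul_le_mul_of_nonneg_left hxy hc0.le)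
  have h1 := hanti.integral_le_sum
  have h2 : ∫ x in (0 : ℝ)..(0 + (m : ℝ)), b (c * x) = c⁻¹ * ∫ x in (0 : ℝ)..S, b x := by
    rw [intervalIntegral.integral_comp_mul_left (fun x => b x) hc0.ne', smul_eq_mul]
    rw [mul_zero, zero_add, hcm]
  rw [h2] at h1
  have h3 : ∑ i ∈ Finset.range m, b (c * (0 + (i : ℝ))) =
      ∑ i ∈ Finset.range m, b (c * ((i : ℝ) + 1)) + (b 0 - b S) := by
    have e1 := Finset.sum_range_succ (fun i : ℕ => b (c * (i : ℝ))) m
    have e2 := Finset.sum_range_succ' (fun i : ℕ => b (c * (i : ℝ))) m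
    rw [e1] at e2
    have e3 : b (c * (m : ℝ)) = b S := by rw [hcm]
    have e4 : b (c * ((0 : ℕ) : ℝ)) = b 0 := by rw [Nat.cast_zero, mul_zero]
    rw [e3, e4] at e2
    simp only [zero_add]
    push_cast at e2
    linarith
  have h4 : ∑ i ∈ Finset.range m, b (c * ((i : ℝ) + 1)) * c ≤ φ S - φ 0 := by
    have e1 : ∀ i ∈ Finset.range m, b (c * ((i : ℝ) + 1)) * c ≤
        φ (c * ((i + 1 : ℕ) : ℝ)) - φ (c * (i : ℝ)) := by
      intro i hi
      have hi' : (i : ℝ) + 1 ≤ m := by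
        have := Finset.mem_range.1 hi
        exact_mod_cast this
      have hi0 : (0 : ℝ) ≤ i := Nat.cast_nonneg i
      have h5 := h (c * ((i : ℝ) + 1)) (hmem _ (by linarith) hi') (c * (i : ℝ))
        (hmem _ hi0 (by linarith))
      push_cast
      have h6 : b (c * ((i : ℝ) + 1)) * (c * (i : ℝ) - c * ((i : ℝ) + 1)) =
          -(b (c * ((i : ℝ) + 1)) * c) := by ring
      rw [h6] at h5
      linarith
    refine (Finset.sum_le_sum e1).trans (le_of_eq ?_)
    rw [Finset.sum_range_sub (fun i : ℕ => φ (c * (i : ℝ)))]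
    rw [hcm, Nat.cast_zero, mul_zero]
  rw [← Finset.sum_mul] at h4
  rw [h3] at h1
  have h5 : ∫ x in (0 : ℝ)..S, b x ≤
      c * (∑ i ∈ Finset.range m, b (c * ((i : ℝ) + 1)) + (b 0 - b S)) := by
    have := mul_le_mul_of_nonneg_left h1 hc0.le
    rwa [← mul_assoc, mul_inv_cancel₀ hc0.ne', one_mul] at this
  have h6 : c * (b 0 - b S) = (b 0 - b S) * S / m := by rw [hc]; ring
  have h7 : c * (∑ i ∈ Finset.range m, b (c * ((i : ℝ) + 1)) + (b 0 - b S)) =
      (∑ i ∈ Finset.range m, b (c * ((i : ℝ) + 1))) * c + (b 0 - b S) * S / m := by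
    rw [← h6]; ring
  rw [h7] at h5
  linarith

theorem t : S_SG := by
  intro φ b S hS h
  have hanti := anti φ b S h
  refine ⟨?_, ?_⟩
  · apply AntitoneOn.intervalIntegrable
    rwa [uIcc_of_le hS]
  · rcases hS.lt_or_eq with hlt | heq
    · by_contra hcon
      push Not at hcon
      have hC : 0 ≤ (b 0 - b S) * S := by
        apply mul_nonneg _ hS
        have := hanti (left_mem_Icc.2 hS) (right_mem_Icc.2 hS) hS
        linarith
      obtain ⟨m, hm⟩ := exists_nat_gt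
        ((b 0 - b S) * S / ((∫ s in (0 : ℝ)..S, b s) - (φ S - φ 0)))
      have hpos : 0 < (∫ s in (0 : ℝ)..S, b s) - (φ S - φ 0) := by linarith
      have hm0 : (0 : ℝ) < m := lt_of_le_of_lt (div_nonneg hC hpos.le) hm
      have hb := bound φ b S hlt h m (by exact_mod_cast hm0)
      have h1 : (b 0 - b S) * S / m < (∫ s in (0 : ℝ)..S, b s) - (φ S - φ 0) := by
        rw [div_lt_iff₀ hm0]
        rw [div_lt_iff₀ hpos] at hm
        linarith
      linarith
    · rw [← heq]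
      simp

end Pool.Agent.Helper22.KN.SG
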