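import Pool.Agent.Helper70.KN.Goals3

/-!
# PROJECT KN (MP_20ee5e_ag), packet TC
-/

set_option autoImplicit false

open MeasureTheory Set

namespace Pool.Agent.Helper22.KN.TC

open Pool.Agent.Helper70.KN

theorem t : S_TC := by
  intro N V ω θ hF i x t hx ht htθ hk
  obtain ⟨-, -, -, -, L, hL, hV⟩ := hF
  rw [hV] at hx ⊢
  obtain ⟨hx0, hx1⟩ := hx
  have hlam : 0 < 1 - θ * t := by
    rw [mul_comm θ t]
    linarith
  refine ⟨?_, ?_⟩
  · intro k
    change (0 : ℝ) ≤ if k = i then x k / (1 - θ * t) else (x k - t) / (1 - θ * t)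
    split_ifs with h
    · exact div_nonneg (hx0 k) hlam.le
    · exact div_nonneg (sub_nonneg.2 (hk k h)) hlam.le
  · intro w hw
    obtain ⟨hw0, hwθ⟩ := hL w hw
    have e1 : ∑ j, w j * (if j = i then x j / (1 - θ * t) else (x j - t) / (1 - θ * t)) =
        (∑ j, w j * x j - t * ∑ j ∈ Finset.univ.erase i, w j) / (1 - θ * t) := by
      rw [← Finset.add_sum_erase Finset.univ _ (Finset.mem_univ i),
        ← Finset.add_sum_erase Finset.univ (fun j => w j * x j) (Finset.mem_univ i)]
      have e2 : ∑ j ∈ Finset.univ.erase i,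
          w j * (if j = i then x j / (1 - θ * t) else (x j - t) / (1 - θ * t)) =
          (∑ j ∈ Finset.univ.erase i, w j * x j - t * ∑ j ∈ Finset.univ.erase i, w j) /
            (1 - θ * t) := by
        rw [Finset.mul_sum, ← Finset.sum_sub_distrib, Finset.sum_div]
        apply Finset.sum_congr rfl
        intro j hj
        rw [if_neg (Finset.ne_of_mem_erase hj)]
        ring
      rw [e2, if_pos rfl]
      ring
    change 1 ≤ ∑ j, w j * (if j = i then x j / (1 - θ * t) else (x j - t) / (1 - θ * t))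
    rw [e1, le_div_iff₀ hlam]
    have h1 := hx1 w hw
    have h2 : t * ∑ j ∈ Finset.univ.erase i, w j ≤ t * θ :=
      mul_le_mul_of_nonneg_left (hwθ i) ht
    linarith

end Pool.Agent.Helper22.KN.TC
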